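import Pool.Agent.H28.GN.T1

/-!
# Board thg_modules, row MRG (helper79): marginals of a product measure
-/

set_option autoImplicit false

open Finset

namespace Pool.Agent.H79.GN

open Pool.Agent.H28.GN

theorem pf_MRG : T_MRG := by
  classical
  intro q R ι _ _ pos w B hpos hw
  set C := {i : Fin R // i ∉ Set.range pos} with hC
  set e : ι ⊕ C ≃ Fin R := (Equiv.sumCongr (Equiv.ofInjective pos hpos) (Equiv.refl _)).trans
    (Equiv.Set.sumCompl (Set.range pos)) with he
  have he1 : ∀ a, e (Sum.inl a) = pos a := fun a => rfl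
  have he2 : ∀ c : C, e (Sum.inr c) = c.1 := fun c => rfl
  set Ψ : (Fin R → Fin q) ≃ (ι → Fin q) × (C → Fin q) :=
    (Equiv.arrowCongr e.symm (Equiv.refl _)).trans (Equiv.sumArrowEquivProdArrow ι C (Fin q))
    with hΨ
  have hΨ1 : ∀ v a, (Ψ v).1 a = v (pos a) := fun v a => rfl
  have hΨ2 : ∀ v (c : C), (Ψ v).2 c = v c.1 := fun v c => rfl
  have hmem : ∀ v : Fin R → Fin q, v ∈ Lft pos B ↔ (Ψ v).1 ∈ B := fun v => Iff.rfl
  have hprod : ∀ v : Fin R → Fin q, ∏ i, w i (v i) =
      (∏ a, w (pos a) ((Ψ v).1 a)) * ∏ c : C, w c.1 ((Ψ v).2 c) := by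
    intro v
    rw [← Equiv.prod_comp e, Fintype.prod_sum_type]
    rfl
  have hone : ∑ x : C → Fin q, ∏ c : C, w c.1 (x c) = 1 := by
    have h1 := Finset.prod_univ_sum (fun _ : C => (univ : Finset (Fin q)))
      (fun (c : C) (b : Fin q) => w c.1 b)
    rw [Fintype.piFinset_univ] at h1
    rw [← h1]
    exact prod_eq_one fun c _ => hw c.1
  rw [Fintype.sum_equiv Ψ (fun v => if v ∈ Lft pos B then ∏ i, w i (v i) else 0)
    (fun p => if p.1 ∈ B then (∏ a, w (pos a) (p.1 a)) * ∏ c : C, w c.1 (p.2 c) else 0) ?_,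
    Fintype.sum_prod_type]
  · refine sum_congr rfl fun u _ => ?_
    by_cases hu : u ∈ B
    · simp only [if_pos hu]
      rw [← mul_sum, hone, mul_one]
    · simp only [if_neg hu]
      exact sum_const_zero
  · intro v
    by_cases hv : v ∈ Lft pos B
    · rw [if_pos hv, if_pos ((hmem v).1 hv), hprod]
    · rw [if_neg hv, if_neg (fun h => hv ((hmem v).2 h))]

end Pool.Agent.H79.GN
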